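import Mathlib

set_option autoImplicit false

open Set Filter Topology

namespace Pool.Agent.W809.ZQ

/-- complex matrices of size `n` -/
abbrev Mt (n : ℕ) := Matrix (Fin n) (Fin n) ℂ

/-- the unitary group -/
abbrev U (n : ℕ) := Matrix.unitaryGroup (Fin n) ℂ

theorem isCompact_unitary (n : ℕ) :
    IsCompact ((Matrix.unitaryGroup (Fin n) ℂ : Submonoid (Mt n)) : Set (Mt n)) := by
  have h1 : IsCompact (Set.pi univ fun _ : Fin n => Set.pi univ fun _ : Fin n =>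
      Metric.closedBall (0 : ℂ) 1) :=
    isCompact_univ_pi fun _ => isCompact_univ_pi fun _ => isCompact_closedBall _ _
  refine h1.of_isClosed_subset ?_ ?_
  · have h2 : ((Matrix.unitaryGroup (Fin n) ℂ : Submonoid (Mt n)) : Set (Mt n)) =
        {A : Mt n | star A * A = 1 ∧ A * star A = 1} := by
      ext A
      rfl
    rw [h2]
    exact (isClosed_eq (by fun_prop) continuous_const).inter
      (isClosed_eq (by fun_prop) continuous_const)
  · intro A hA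
    simp only [Set.mem_pi, Set.mem_univ, true_implies, mem_closedBall_zero_iff]
    intro i j
    exact entry_norm_bound_of_unitary hA i j

instance instCompactU (n : ℕ) : CompactSpace (U n) :=
  isCompact_iff_compactSpace.1 (isCompact_unitary n)

/-- the directions of the one-parameter groups of a subgroup (no closedness is required) -/
def LL {n : ℕ} (N : Subgroup (U n)) : Set (Mt n) :=
  {X | ∀ t : ℝ, ∃ u ∈ N, (u : Mt n) = NormedSpace.exp (t • X)}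

/-- `D` is closed in `C` -/
def RelClosed {n : ℕ} (D C : Subgroup (U n)) : Prop :=
  ∀ x ∈ C, x ∈ closure (D : Set (U n)) → x ∈ D

/-- arbitrarily small clopen neighbourhoods of the identity -/
def ZD {n : ℕ} (D : Subgroup (U n)) : Prop :=
  ∀ O ∈ 𝓝 (1 : U n), ∃ Q : Set D, IsClopen Q ∧ (1 : D) ∈ Q ∧ ∀ x ∈ Q, (x : U n) ∈ O

/-- discrete -/
def Disc {n : ℕ} (D : Subgroup (U n)) : Prop :=
  ∃ O ∈ 𝓝 (1 : U n), ∀ x ∈ D, x ∈ O → x = 1

/-- all proper relatively closed subgroups are compact -/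
def PC {n : ℕ} (C : Subgroup (U n)) : Prop :=
  ∀ D : Subgroup (U n), D ≤ C → RelClosed D C → D ≠ C → IsClosed (D : Set (U n))

/-- relatively closed zero-dimensional subgroups are discrete -/
def ZM {n : ℕ} (C : Subgroup (U n)) : Prop :=
  ∀ D : Subgroup (U n), D ≤ C → RelClosed D C → ZD D → Disc D

/-- not commutative -/
def NonComm {n : ℕ} (C : Subgroup (U n)) : Prop := ∃ a ∈ C, ∃ b ∈ C, a * b ≠ b * a

/-- products of exponentials: `exp (t_0 Y_0) exp (t_1 Y_1) ...` -/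
noncomputable def PE {n d : ℕ} (Y : Fin d → Mt n) (t : Fin d → ℝ) : Mt n :=
  (List.ofFn fun j => NormedSpace.exp (t j • Y j)).prod

/-- the `i`-th diagonal entry after the change of basis `P` -/
def dg {n : ℕ} (P c : U n) (i : Fin n) : ℂ := ((P * c * P⁻¹ : U n) : Mt n) i i

/-- `P` diagonalises all elements of `C` -/
def Dia {n : ℕ} (P : U n) (C : Subgroup (U n)) : Prop :=
  ∀ a ∈ C, ∀ i j : Fin n, i ≠ j → ((P * a * P⁻¹ : U n) : Mt n) i j = 0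

/-- the `i`-th character is open at `1` -/
def OpenChar {n : ℕ} (P : U n) (C : Subgroup (U n)) (i : Fin n) : Prop :=
  ∀ O ∈ 𝓝 (1 : U n), ∃ δ > (0 : ℝ), ∀ z : ℂ, ‖z‖ = 1 → ‖z - 1‖ < δ →
    ∃ c ∈ C, c ∈ O ∧ dg P c i = z

/-! ### small lemmas -/

section lemmas

variable {n : ℕ}

theorem LL_mono {D C : Subgroup (U n)} (h : D ≤ C) : LL D ⊆ LL C := fun _ hX t =>
  let ⟨u, hu, e⟩ := hX t
  ⟨u, h hu, e⟩

theorem LL_zero (C : Subgroup (U n)) : (0 : Mt n) ∈ LL C := fun t =>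
  ⟨1, C.one_mem, by rw [smul_zero, NormedSpace.exp_zero]; rfl⟩

theorem LL_smul {C : Subgroup (U n)} {X : Mt n} (hX : X ∈ LL C) (s : ℝ) : s • X ∈ LL C := fun t => by
  obtain ⟨u, hu, e⟩ := hX (t * s)
  exact ⟨u, hu, by rw [e, smul_smul]⟩

theorem LL_conj {C : Subgroup (U n)} {X : Mt n} (hX : X ∈ LL C) {g : U n} (hg : g ∈ C) :
    (g : Mt n) * X * ((g⁻¹ : U n) : Mt n) ∈ LL C := fun t => by
  obtain ⟨u, hu, e⟩ := hX t
  refine ⟨g * u * g⁻¹, C.mul_mem (C.mul_mem hg hu) (C.inv_mem hg), ?_⟩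
  have h1 : (g : Mt n) * ((g⁻¹ : U n) : Mt n) = 1 := by
    rw [← Submonoid.coe_mul, mul_inv_cancel]; rfl
  have h2 : IsUnit (g : Mt n) := IsUnit.of_mul_eq_one _ h1
  have h3 : ((g⁻¹ : U n) : Mt n) = (g : Mt n)⁻¹ := (Matrix.inv_eq_right_inv h1).symm
  have h4 : t • ((g : Mt n) * X * (g : Mt n)⁻¹) = (g : Mt n) * (t • X) * (g : Mt n)⁻¹ := by
    rw [Matrix.mul_smul, Matrix.smul_mul]
  rw [Submonoid.coe_mul, Submonoid.coe_mul, e, h3, h4, Matrix.exp_conj _ _ h2]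

/-- the Lie algebra of a closed subgroup, as a real subspace -/
def LS (hADD : ∀ (n : ℕ) (N : Subgroup (U n)), IsClosed (N : Set (U n)) →
    ∀ X ∈ LL N, ∀ Y ∈ LL N, X + Y ∈ LL N) (N : Subgroup (U n)) (hN : IsClosed (N : Set (U n))) :
    Submodule ℝ (Mt n) where
  carrier := LL N
  add_mem' {X Y} hX hY := hADD n N hN X hX Y hY
  zero_mem' := LL_zero N
  smul_mem' s _ hX := LL_smul hX s

theorem PE_mem {C : Subgroup (U n)} {d : ℕ} {Y : Fin d → Mt n} (hY : ∀ j, Y j ∈ LL C)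
    (t : Fin d → ℝ) : ∃ u ∈ C, (u : Mt n) = PE Y t := by
  choose f hf he using hY
  refine ⟨(List.ofFn fun j => f j (t j)).prod, ?_, ?_⟩
  · refine C.list_prod_mem ?_
    intro x hx
    rw [List.mem_ofFn] at hx
    obtain ⟨j, rfl⟩ := hx
    exact hf j (t j)
  · have h1 : ((List.ofFn fun j => f j (t j)).prod : U n).1 =
        ((List.ofFn fun j => f j (t j)).map (Subtype.val : U n → Mt n)).prod := by
      rw [Submonoid.coe_list_prod]
    rw [h1, List.map_ofFn]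
    unfold PE
    congr 2
    funext j
    exact he j (t j)

theorem PE_zero {d : ℕ} (Y : Fin d → Mt n) : PE Y 0 = 1 := by
  unfold PE
  simp [List.ofFn_const, NormedSpace.exp_zero]

theorem PE_append {d e : ℕ} (Y : Fin d → Mt n) (W : Fin e → Mt n) (t : Fin (d + e) → ℝ) :
    PE (Fin.append Y W) t =
      PE Y (fun i => t (Fin.castAdd e i)) * PE W (fun i => t (Fin.natAdd d i)) := by
  unfold PE
  rw [← List.prod_append]
  congr 1
  rw [List.ofFn_add]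
  congr 1
  · congr 1
    funext i
    have h : Fin.append Y W (Fin.castAdd e i) = Y i := Fin.append_left _ _ _
    exact congrArg (fun z => NormedSpace.exp (t (Fin.castAdd e i) • z)) h
  · congr 1
    funext i
    have h : Fin.append Y W (Fin.natAdd d i) = W i := Fin.append_right _ _ _
    exact congrArg (fun z => NormedSpace.exp (t (Fin.natAdd d i) • z)) h

theorem PE_commute {d : ℕ} {Y : Fin d → Mt n} {A : Mt n} (h : ∀ j, Commute (Y j) A)
    (t : Fin d → ℝ) : Commute (PE Y t) A := by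
  unfold PE
  refine Commute.list_prod_left _ _ ?_
  intro x hx
  rw [List.mem_ofFn] at hx
  obtain ⟨j, rfl⟩ := hx
  exact ((h j).smul_left (t j)).exp_left

/-- a subgroup which contains a closed subgroup that is open in it is closed -/
theorem closed_of_open_gen {G : Type*} [Group G] [TopologicalSpace G] [IsTopologicalGroup G]
    {C D : Subgroup G} (hDC : D ≤ C) (hD : IsClosed (D : Set G))
    {O : Set G} (hO : O ∈ 𝓝 (1 : G)) (h : ∀ x ∈ C, x ∈ O → x ∈ D) :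
    IsClosed (C : Set G) := by
  rw [← closure_subset_iff_isClosed]
  intro x hx
  have h1 : Tendsto (fun p : G × G => p.1⁻¹ * p.2) (𝓝 x ×ˢ 𝓝 x) (𝓝 1) := by
    have h2 : Continuous (fun p : G × G => p.1⁻¹ * p.2) := by fun_prop
    have h3 := h2.tendsto (x, x)
    simp only [inv_mul_cancel] at h3
    rwa [nhds_prod_eq] at h3
  have h4 := h1 hO
  rw [mem_map, mem_prod_same_iff] at h4
  obtain ⟨V, hV, hVO⟩ := h4
  obtain ⟨c, hcV, hcC⟩ := mem_closure_iff_nhds.1 hx V hV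
  have h5 : c⁻¹ * x ∈ closure (D : Set G) := by
    rw [mem_closure_iff_nhds]
    intro W hW
    have hcc : Continuous (fun y : G => c⁻¹ * y) := by fun_prop
    have h6 : ∀ᶠ y in 𝓝 x, c⁻¹ * y ∈ W := hcc.continuousAt.eventually_mem hW
    obtain ⟨y, ⟨hyW, hyV⟩, hyC⟩ := mem_closure_iff_nhds.1 hx _ (Filter.inter_mem h6 hV)
    refine ⟨c⁻¹ * y, hyW, h _ (C.mul_mem (C.inv_mem hcC) hyC) ?_⟩
    exact hVO (Set.mk_mem_prod hcV hyV)
  rw [hD.closure_eq] at h5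
  have h7 : c * (c⁻¹ * x) ∈ C := C.mul_mem hcC (hDC h5)
  rwa [mul_inv_cancel_left] at h7

theorem closed_of_open {C D : Subgroup (U n)} (hDC : D ≤ C) (hD : IsClosed (D : Set (U n)))
    {O : Set (U n)} (hO : O ∈ 𝓝 (1 : U n)) (h : ∀ x ∈ C, x ∈ O → x ∈ D) :
    IsClosed (C : Set (U n)) := closed_of_open_gen hDC hD hO h

theorem closed_of_disc {C : Subgroup (U n)} (h : Disc C) : IsClosed (C : Set (U n)) := by
  obtain ⟨O, hO, h1⟩ := h
  refine closed_of_open (D := ⊥) bot_le ?_ hO ?_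
  · rw [Subgroup.coe_bot]; exact isClosed_singleton
  · intro x hx hxO
    rw [Subgroup.mem_bot]
    exact h1 x hx hxO

end lemmas

/-! ### the statements -/

def S_ADD : Prop := ∀ (n : ℕ) (N : Subgroup (U n)), IsClosed (N : Set (U n)) →
  ∀ X ∈ LL N, ∀ Y ∈ LL N, X + Y ∈ LL N

def S_TRV : Prop := ∀ (n : ℕ) (N : Subgroup (U n)), IsClosed (N : Set (U n)) →
  ∀ W : Submodule ℝ (Mt n), (∀ X ∈ LL N, X ∈ W → X = 0) →
    ∃ O ∈ 𝓝 (0 : Mt n), ∀ V ∈ O, V ∈ W → (∃ u ∈ N, (u : Mt n) = 1 + V) → V = 0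

def S_LC : Prop := ∀ (n : ℕ) (N : Subgroup (U n)), IsClosed (N : Set (U n)) →
  ∀ (d : ℕ) (Y : Fin d → Mt n), (∀ j, Y j ∈ LL N) →
    (∀ X ∈ LL N, X ∈ Submodule.span ℝ (Set.range Y)) →
    ∀ ε > (0 : ℝ), ∃ O ∈ 𝓝 (1 : U n), ∀ g ∈ N, g ∈ O →
      ∃ t : Fin d → ℝ, (∀ j, |t j| < ε) ∧ (g : Mt n) = PE Y t

def S_DCC : Prop := ∀ (n : ℕ) (F : Set (Subgroup (U n))), F.Nonempty →
  (∀ N ∈ F, IsClosed (N : Set (U n))) → ∃ N ∈ F, ∀ N' ∈ F, N' ≤ N → N' = N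

def S_MIN : Prop := ∀ (n : ℕ) (G : Subgroup (U n)), ZM G → ¬ IsClosed (G : Set (U n)) →
  ∃ C : Subgroup (U n), ¬ IsClosed (C : Set (U n)) ∧ PC C ∧ ZM C

def S_DIAG : Prop := ∀ (n : ℕ) (A : Subgroup (U n)), (∀ a ∈ A, ∀ b ∈ A, a * b = b * a) →
  ∃ P : U n, Dia P A

def S_AB1 : Prop := ∀ (n : ℕ) (C : Subgroup (U n)) (P : U n), Dia P C →
  (∀ i : Fin n, (∃ c ∈ C, dg P c i ≠ 1) → ¬ OpenChar P C i) → ZD C

def S_AB2 : Prop := ∀ (n : ℕ) (C : Subgroup (U n)) (P : U n), Dia P C →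
  ∀ i : Fin n, OpenChar P C i →
    (∀ x ∈ closure {c : U n | c ∈ C ∧ dg P c i = 1}, x ∈ C) → IsClosed (C : Set (U n))

def S_SPLIT : Prop := ∀ (n : ℕ) (N : Subgroup (U n)), IsClosed (N : Set (U n)) →
  ∀ m : Submodule ℝ (Mt n), (∀ X ∈ m, X ∈ LL N) →
    (∀ g ∈ N, ∀ X ∈ m, (g : Mt n) * X * ((g⁻¹ : U n) : Mt n) ∈ m) →
    ∀ Z ∈ LL N, ∃ Y ∈ m, ∃ W ∈ LL N, Z = Y + W ∧ ∀ X ∈ m, X * W = W * X

def S_TR : Prop := ∀ (n : ℕ) (C : Subgroup (U n)), ∀ O ∈ 𝓝 (1 : U n), ∃ O' ∈ 𝓝 (1 : U n),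
  ∀ g ∈ closure (C : Set (U n)), g ∈ O' → ∃ c ∈ C, c ∈ O ∧
    ∀ X ∈ LL C, ((c⁻¹ * g : U n) : Mt n) * X = X * ((c⁻¹ * g : U n) : Mt n)

def S_NC : Prop := ∀ (n : ℕ) (C : Subgroup (U n)), PC C →
  (∃ X ∈ LL C, ∃ c ∈ C, (c : Mt n) * X ≠ X * (c : Mt n)) → IsClosed (C : Set (U n))

def S_POW : Prop := ∀ (n : ℕ) (C : Subgroup (U n)), PC C → NonComm C →
  (∀ X ∈ LL C, ∀ c ∈ C, (c : Mt n) * X = X * (c : Mt n)) →
  ∀ c ∈ C, ∃ k : ℕ, 1 ≤ k ∧ ∀ a ∈ C, c ^ k * a = a * c ^ k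

def S_TOR : Prop := ∀ (n : ℕ) (D : Subgroup (U n)), (∀ d ∈ D, ∃ k : ℕ, 1 ≤ k ∧ d ^ k = 1) → ZD D

def S_DET : Prop := ∀ (n : ℕ) (C : Subgroup (U n)),
  (∀ c ∈ C, ∃ k : ℕ, 1 ≤ k ∧ ∀ a ∈ C, c ^ k * a = a * c ^ k) →
  ∃ D : Subgroup (U n), D ≤ C ∧ RelClosed D C ∧ (∀ a ∈ C, ∀ b ∈ C, a * b * a⁻¹ * b⁻¹ ∈ D) ∧
    ∀ d ∈ D, ∃ k : ℕ, 1 ≤ k ∧ d ^ k = 1

def S_FIN : Prop := ∀ (n : ℕ) (C : Subgroup (U n)), ¬ IsClosed (C : Set (U n)) → PC C → ZM C →
  NonComm C → (∀ c ∈ C, ∃ k : ℕ, 1 ≤ k ∧ ∀ a ∈ C, c ^ k * a = a * c ^ k) → False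

/-- zero-dimensional -/
def ZeroDim (X : Type) [TopologicalSpace X] : Prop :=
  TopologicalSpace.IsTopologicalBasis {s : Set X | IsClopen s}

/-- Property `Z_m`: every closed zero-dimensional metrizable subgroup of `G` is discrete. -/
def Zm (G : Type) [Group G] [TopologicalSpace G] : Prop :=
  ∀ N : Subgroup G, IsClosed (N : Set G) → ZeroDim N → TopologicalSpace.MetrizableSpace N →
    DiscreteTopology N

def S_EMB : Prop := ∀ (K : Type) [Group K] [TopologicalSpace K] [IsTopologicalGroup K]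
  [CompactSpace K] [T2Space K], (∃ O ∈ 𝓝 (1 : K), ∀ H : Subgroup K, (H : Set K) ⊆ O → H = ⊥) →
  ∃ (n : ℕ) (f : K →* U n), Continuous f ∧ Function.Injective f

def S_NSS : Prop := ∀ (E : Type) [NormedAddCommGroup E] [NormedSpace ℝ E] [FiniteDimensional ℝ E]
  (K : Type) [TopologicalSpace K] [T2Space K] [ChartedSpace E K] [Group K]
  [LieGroup (modelWithCornersSelf ℝ E) 1 K],
  ∃ O ∈ 𝓝 (1 : K), ∀ H : Subgroup K, (H : Set K) ⊆ O → H = ⊥

def S_ZDK : Prop := ∀ (K : Type) [Group K] [TopologicalSpace K] [IsTopologicalGroup K]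
  [CompactSpace K] [T2Space K] (n : ℕ) (f : K →* U n), Continuous f → Function.Injective f →
  ∀ G : Subgroup K, Zm G → ZM (G.map f)

end Pool.Agent.W809.ZQ
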