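import Pool.Agent.W809.ZQ.Stm

set_option autoImplicit false

open Set Filter Topology

namespace Pool.Agent.W809.ZQ

variable {n : ℕ}

theorem dg_continuous (P : U n) (i : Fin n) : Continuous (fun c : U n => dg P c i) := by
  unfold dg
  have h1 : Continuous (fun c : U n => P * c * P⁻¹) := by fun_prop
  have h2 : Continuous (fun c : U n => ((P * c * P⁻¹ : U n) : Mt n)) :=
    continuous_subtype_val.comp h1
  exact (continuous_apply_apply i i).comp h2

theorem dg_one (P : U n) (i : Fin n) : dg P 1 i = 1 := by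
  unfold dg
  have h : (P * 1 * P⁻¹ : U n) = 1 := by group
  rw [h]
  show (1 : Mt n) i i = 1
  simp

theorem dg_mul {C : Subgroup (U n)} {P : U n} (hD : Dia P C) (i : Fin n) {a b : U n} (ha : a ∈ C)
    (_hb : b ∈ C) : dg P (a * b) i = dg P a i * dg P b i := by
  unfold dg
  have h : (P * (a * b) * P⁻¹ : U n) = (P * a * P⁻¹) * (P * b * P⁻¹) := by group
  rw [h, Submonoid.coe_mul, Matrix.mul_apply]
  rw [Finset.sum_eq_single i]
  · intro j _ hj
    rw [hD a ha i j (Ne.symm hj), zero_mul]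
  · intro hi
    exact absurd (Finset.mem_univ i) hi

theorem ab (hDIAG : S_DIAG) (hAB1 : S_AB1) (hAB2 : S_AB2) (C : Subgroup (U n))
    (hPC : PC C) (hZM : ZM C) (hcomm : ¬ NonComm C) : IsClosed (C : Set (U n)) := by
  have hc : ∀ a ∈ C, ∀ b ∈ C, a * b = b * a := by
    intro a ha b hb
    by_contra hne
    exact hcomm ⟨a, ha, b, hb, hne⟩
  obtain ⟨P, hP⟩ := hDIAG n C hc
  by_cases h : ∃ i : Fin n, (∃ c ∈ C, dg P c i ≠ 1) ∧ OpenChar P C i
  · obtain ⟨i, ⟨c, hc1, hc2⟩, ho⟩ := h
    let D : Subgroup (U n) :=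
      { carrier := {c : U n | c ∈ C ∧ dg P c i = 1}
        one_mem' := ⟨C.one_mem, dg_one P i⟩
        mul_mem' := by
          rintro a b ⟨ha, ha'⟩ ⟨hb, hb'⟩
          exact ⟨C.mul_mem ha hb, by rw [dg_mul hP i ha hb, ha', hb', mul_one]⟩
        inv_mem' := by
          rintro a ⟨ha, ha'⟩
          refine ⟨C.inv_mem ha, ?_⟩
          have h1 := dg_mul hP i ha (C.inv_mem ha)
          rw [mul_inv_cancel, dg_one, ha', one_mul] at h1
          exact h1.symm }
    have hDC : D ≤ C := fun x hx => hx.1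
    have hcl : IsClosed (D : Set (U n)) := by
      refine hPC D hDC ?_ ?_
      · intro x hx hxD
        refine ⟨hx, ?_⟩
        have h2 : IsClosed {y : U n | dg P y i = 1} :=
          isClosed_eq (dg_continuous P i) continuous_const
        exact closure_minimal (fun y hy => hy.2) h2 hxD
      · intro he
        have : c ∈ D := by rw [he]; exact hc1
        exact hc2 this.2
    refine hAB2 n C P hP i ho ?_
    intro x hx
    have h3 : {c : U n | c ∈ C ∧ dg P c i = 1} = (D : Set (U n)) := rfl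
    rw [h3, hcl.closure_eq] at hx
    exact hDC hx
  · push Not at h
    have h1 := hAB1 n C P hP (fun i hi => h i hi)
    exact closed_of_disc (hZM C le_rfl (fun x hx _ => hx) h1)

theorem main (hMIN : S_MIN) (hDIAG : S_DIAG) (hAB1 : S_AB1) (hAB2 : S_AB2) (hNC : S_NC)
    (hPOW : S_POW) (hFIN : S_FIN) (G : Subgroup (U n)) (hG : ZM G) : IsClosed (G : Set (U n)) := by
  by_contra hcon
  obtain ⟨C, h1, h2, h3⟩ := hMIN n G hG hcon
  by_cases hn : NonComm C
  · by_cases hl : ∃ X ∈ LL C, ∃ c ∈ C, (c : Mt n) * X ≠ X * (c : Mt n)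
    · exact h1 (hNC n C h2 hl)
    · push Not at hl
      exact hFIN n C h1 h2 h3 hn (hPOW n C h2 hn hl)
  · exact h1 (ab hDIAG hAB1 hAB2 C h2 h3 hn)

/-- compact Lie groups -/
theorem final (hMIN : S_MIN) (hDIAG : S_DIAG) (hAB1 : S_AB1) (hAB2 : S_AB2) (hNC : S_NC)
    (hPOW : S_POW) (hFIN : S_FIN) (hEMB : S_EMB) (hNSS : S_NSS) (hZDK : S_ZDK)
    (E : Type) [NormedAddCommGroup E] [NormedSpace ℝ E] [FiniteDimensional ℝ E]
    (K : Type) [TopologicalSpace K] [T2Space K] [CompactSpace K] [ChartedSpace E K] [Group K]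
    [LieGroup (modelWithCornersSelf ℝ E) 1 K] (G : Subgroup K) (hG : Zm G) :
    IsClosed (G : Set K) := by
  haveI : IsTopologicalGroup K :=
    topologicalGroup_of_lieGroup (modelWithCornersSelf ℝ E) 1
  obtain ⟨n, f, hf, hinj⟩ := hEMB K (hNSS E K)
  have h1 := main hMIN hDIAG hAB1 hAB2 hNC hPOW hFIN (G.map f) (hZDK K n f hf hinj G hG)
  have h2 : (G : Set K) = f ⁻¹' ((G.map f : Subgroup (U n)) : Set (U n)) := by
    ext x
    constructor
    · intro hx
      exact ⟨x, hx, rfl⟩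
    · rintro ⟨y, hy, hxy⟩
      rw [← hinj hxy]
      exact hy
  rw [h2]
  exact h1.preimage hf

end Pool.Agent.W809.ZQ
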